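import Pool.Agent.H.MP_81ecdf_nt.B
import Pool.Agent.H.MP_22b8ff_nt.B

set_option autoImplicit false

namespace Pool.Agent.H.MP_05fa0d_nt

open Polynomial Finset Pool.Agent.H.MP_81ecdf_nt Pool.Agent.H.MP_22b8ff_nt

noncomputable def R (q : ℕ) (e : ℕ → ℕ) : ℝ := ∑' i : ℕ, (e i : ℝ) / (q : ℝ) ^ (i + 1)

lemma geo {q : ℕ} (hq : 1 < q) : HasSum (fun i : ℕ => ((q : ℝ) - 1) / (q : ℝ) ^ (i + 1)) 1 := by
  have h1 : (1 : ℝ) < q := by exact_mod_cast hq
  have h2 := (hasSum_geometric_of_lt_one (r := (q : ℝ)⁻¹) (by positivity)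
    (inv_lt_one_of_one_lt₀ h1)).mul_left (((q : ℝ) - 1) / q)
  have h3 : (q : ℝ) - 1 ≠ 0 := by linarith
  have h4 : ((q : ℝ) - 1) / q * (1 - (q : ℝ)⁻¹)⁻¹ = 1 := by field_simp
  have h5 : (fun i : ℕ => ((q : ℝ) - 1) / q * (q : ℝ)⁻¹ ^ i) =
      fun i : ℕ => ((q : ℝ) - 1) / (q : ℝ) ^ (i + 1) := by
    funext i; rw [inv_pow, pow_succ]; field_simp
  rwa [h4, h5] at h2

lemma R_term {q : ℕ} (hq : 1 < q) {e : ℕ → ℕ} (he : ∀ i, e i < q) (i : ℕ) :
    (e i : ℝ) / (q : ℝ) ^ (i + 1) ≤ ((q : ℝ) - 1) / (q : ℝ) ^ (i + 1) := by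
  have : (e i : ℝ) + 1 ≤ q := by exact_mod_cast he i
  exact div_le_div_of_nonneg_right (by linarith) (by positivity)

lemma R_summable {q : ℕ} (hq : 1 < q) {e : ℕ → ℕ} (he : ∀ i, e i < q) :
    Summable fun i : ℕ => (e i : ℝ) / (q : ℝ) ^ (i + 1) :=
  Summable.of_nonneg_of_le (fun _ => by positivity) (R_term hq he) (geo hq).summable

lemma R_bd {q : ℕ} (hq : 1 < q) {e : ℕ → ℕ} (he : ∀ i, e i < q) : 0 ≤ R q e ∧ R q e ≤ 1 := by
  refine ⟨tsum_nonneg fun i => by positivity, ?_⟩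
  rw [← (geo hq).tsum_eq]
  exact (R_summable hq he).tsum_le_tsum (R_term hq he) (geo hq).summable

lemma R_rec {q : ℕ} (hq : 1 < q) {e : ℕ → ℕ} (he : ∀ i, e i < q) :
    R q e = (e 0 + R q fun i => e (i + 1)) / q := by
  rw [R, (R_summable hq he).tsum_eq_zero_add, add_div, R, ← tsum_div_const]
  congr 1
  · simp
  · refine tsum_congr fun i => ?_
    rw [div_div, ← pow_succ]

lemma R_lt {q : ℕ} (hq : 1 < q) (i : ℕ) : ∀ {e : ℕ → ℕ}, (∀ i, e i < q) → e i = 0 → R q e < 1 := by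
  have h1 : (1 : ℝ) < q := by exact_mod_cast hq
  induction i with
  | zero =>
    intro e he h0
    rw [R_rec hq he, h0, div_lt_one (by linarith)]
    have := (R_bd hq (e := fun i => e (i + 1)) fun i => he _).2
    simp only [Nat.cast_zero, zero_add]; linarith
  | succ i ih =>
    intro e he h0
    rw [R_rec hq he, div_lt_one (by linarith)]
    have := ih (e := fun i => e (i + 1)) (fun i => he _) h0
    have h2 : (e 0 : ℝ) + 1 ≤ q := by exact_mod_cast he 0
    linarith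

def dl (q : ℕ) (e : ℕ → ℕ) : ℕ → ℕ
  | 0 => 0
  | s + 1 => e s + q * dl q e s

lemma dl_congr (q : ℕ) {e e' : ℕ → ℕ} (s : ℕ) (h : ∀ i < s, e i = e' i) : dl q e s = dl q e' s := by
  induction s with
  | zero => rfl
  | succ s ih => rw [dl, dl, h s (by omega), ih fun i hi => h i (by omega)]

lemma R_dl {q : ℕ} (hq : 1 < q) {e : ℕ → ℕ} (he : ∀ i, e i < q) (s : ℕ) :
    (q : ℝ) ^ s * R q e = dl q e s + R q fun i => e (i + s) := by
  have h1 : (1 : ℝ) < q := by exact_mod_cast hq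
  induction s with
  | zero => simp [dl]
  | succ s ih =>
    rw [pow_succ', mul_assoc, ih, R_rec hq (e := fun i => e (i + s)) fun i => he _, dl]
    simp only [zero_add, add_assoc, add_comm 1 s]
    push_cast
    field_simp
    ring

variable {F : Type} [Field F] {q : ℕ} [NeZero q]

lemma one_lt_q (E : F ≃ Fin q) : 1 < q := by
  have : Nontrivial (Fin q) := E.symm.nontrivial_congr.mpr inferInstance
  exact Fin.nontrivial_iff_two_le.mp this

noncomputable def np (E : F ≃ Fin q) (n : ℕ) : F[X] :=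
  ∑ i ∈ range n, monomial i (E.symm (Fin.ofNat q (n / q ^ i)))

noncomputable def evP (E : F ≃ Fin q) (b : F[X]) : ℕ :=
  ∑ j ∈ range (b.natDegree + 1), (E (b.coeff j) : ℕ) * q ^ j

variable {E : F ≃ Fin q}

lemma symm_zero (hE : E 0 = 0) : E.symm (Fin.ofNat q 0) = 0 := by
  rw [Equiv.symm_apply_eq, hE]; rfl

lemma np_coeff (hE : E 0 = 0) (n i : ℕ) :
    (np E n).coeff i = E.symm (Fin.ofNat q (n / q ^ i)) := by
  rw [np, finset_sum_coeff]
  simp only [coeff_monomial]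
  rw [Finset.sum_ite_eq' (range n) i (fun i => E.symm (Fin.ofNat q (n / q ^ i)))]
  split_ifs with h
  · rfl
  · rw [mem_range, not_lt] at h
    rw [Nat.div_eq_of_lt (lt_of_le_of_lt h (Nat.lt_pow_self (one_lt_q E))), symm_zero hE]

lemma evP_eq (hE : E 0 = 0) (b : F[X]) {L : ℕ} (hL : b.natDegree < L) :
    evP E b = ∑ j ∈ range L, (E (b.coeff j) : ℕ) * q ^ j := by
  refine Finset.sum_subset (range_subset_range.mpr hL) fun j _ hj => ?_
  rw [mem_range, not_lt] at hj
  rw [coeff_eq_zero_of_natDegree_lt hj, hE]; simp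

lemma sum_digits (n L : ℕ) : ∑ j ∈ range L, (n / q ^ j % q) * q ^ j = n % q ^ L := by
  induction L with
  | zero => simp [Nat.mod_one]
  | succ L ih => rw [sum_range_succ, ih, Nat.mod_pow_succ, mul_comm]

lemma evP_np (hE : E 0 = 0) (n : ℕ) : evP E (np E n) = n := by
  rw [evP_eq hE _ (L := (np E n).natDegree + 1 + n) (by omega)]
  simp only [np_coeff hE, Equiv.apply_symm_apply, Fin.val_ofNat]
  rw [sum_digits, Nat.mod_eq_of_lt]
  exact lt_of_le_of_lt (by omega) (Nat.lt_pow_self (one_lt_q E))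

lemma np_add (hE : E 0 = 0) {m n : ℕ} (hn : n < q ^ m) (M : ℕ) :
    np E (n + q ^ m * M) = X ^ m * np E M + np E n := by
  have hq : 0 < q := Nat.pos_of_ne_zero (NeZero.ne q)
  ext i
  rw [coeff_add, coeff_X_pow_mul', np_coeff hE, np_coeff hE, np_coeff hE]
  split_ifs with h
  · obtain ⟨k, rfl⟩ := Nat.exists_eq_add_of_le h
    rw [Nat.div_eq_of_lt (lt_of_lt_of_le hn (Nat.pow_le_pow_right hq h)), symm_zero hE, add_zero,
      Nat.add_sub_cancel_left, pow_add, ← Nat.div_div_eq_div_mul,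
      Nat.add_mul_div_left _ _ (by positivity), Nat.div_eq_of_lt hn, zero_add]
  · obtain ⟨k, rfl⟩ := Nat.exists_eq_add_of_lt (not_le.mp h)
    rw [zero_add, add_assoc, pow_add, mul_assoc, Nat.add_mul_div_left _ _ (by positivity)]
    congr 1
    ext
    simp only [Fin.val_ofNat]
    rw [pow_succ', mul_assoc, Nat.add_mul_mod_self_left]

lemma fin_deg (E : F ≃ Fin q) (m : ℕ) : {p : F[X] | p.degree < m}.Finite := by
  haveI : Finite F := Finite.of_equiv _ E.symm
  exact (finite_natDegree_le m).subset fun p hp => natDegree_le_iff_degree_le.mpr (le_of_lt hp)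

@[irreducible] noncomputable def G (E : F ≃ Fin q) (m : ℕ) : Finset F[X] := (fin_deg E m).toFinset

lemma mem_G {m : ℕ} {p : F[X]} : p ∈ G E m ↔ p.degree < m := by simp [G]

lemma card_G (m : ℕ) : (G E m).card = q ^ m := by
  haveI : Finite F := Finite.of_equiv _ E.symm
  rw [G, ← Set.ncard_eq_toFinset_card _ (fin_deg E m), ← Nat.card_coe_set_eq]
  have e : {p : F[X] | p.degree < m} ≃ degreeLT F m :=
    Equiv.subtypeEquivRight fun p => by simp [mem_degreeLT]
  rw [Nat.card_congr (e.trans (degreeLTEquiv F m).toEquiv), Nat.card_fun, Nat.card_congr E]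
  simp

lemma np_mem (hE : E 0 = 0) {m n : ℕ} (hn : n < q ^ m) : np E n ∈ G E m := by
  have hq : 0 < q := Nat.pos_of_ne_zero (NeZero.ne q)
  rw [mem_G, degree_lt_iff_coeff_zero]
  intro i hi
  rw [np_coeff hE, Nat.div_eq_of_lt (lt_of_lt_of_le hn (Nat.pow_le_pow_right hq hi)), symm_zero hE]

lemma np_surj (hE : E 0 = 0) {m : ℕ} {u : F[X]} (hu : u ∈ G E m) : ∃ n < q ^ m, np E n = u := by
  obtain ⟨a, ha, hab⟩ := Finset.surj_on_of_inj_on_of_card_le (s := range (q ^ m)) (t := G E m)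
    (fun i _ => np E i) (fun i hi => np_mem hE (mem_range.mp hi))
    (fun i j _ _ h => by rw [← evP_np hE i, ← evP_np hE j]; exact congrArg _ h)
    (by rw [card_G, card_range]) u hu
  exact ⟨a, mem_range.mp ha, hab.symm⟩

lemma sum_G (hE : E 0 = 0) (m : ℕ) (g : F[X] → ℝ) :
    ∑ u ∈ G E m, g u = ∑ n ∈ range (q ^ m), g (np E n) := by
  symm
  refine Finset.sum_bij (fun n _ => np E n) (fun i hi => np_mem hE (mem_range.mp hi))
    (fun i _ j _ h => by rw [← evP_np hE i, ← evP_np hE j]; exact congrArg _ h) ?_ fun _ _ => rfl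
  intro u hu
  obtain ⟨n, hn, rfl⟩ := np_surj hE hu
  exact ⟨n, mem_range.mpr hn, rfl⟩

lemma evP_lt (hE : E 0 = 0) {m : ℕ} {u : F[X]} (hu : u ∈ G E m) : evP E u < q ^ m := by
  obtain ⟨n, hn, rfl⟩ := np_surj hE hu
  rwa [evP_np hE]

lemma sum_G_shift {m : ℕ} {r : F[X]} (hr : r ∈ G E m) (g : F[X] → ℝ) :
    ∑ u ∈ G E m, g (u + r) = ∑ u ∈ G E m, g u := by
  refine Finset.sum_nbij' (fun u => u + r) (fun u => u - r) ?_ ?_ ?_ ?_ ?_
  · intro u hu
    rw [mem_G] at *
    exact lt_of_le_of_lt (degree_add_le _ _) (max_lt hu hr)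
  · intro u hu
    rw [mem_G] at *
    exact lt_of_le_of_lt (degree_sub_le _ _) (max_lt hu hr)
  · intro u _; simp
  · intro u _; simp
  · intro u _; rfl

omit [NeZero q] in
lemma div_unique {B s r : F[X]} (hB : B ≠ 0) (hr : r.degree < B.degree) :
    (r + B * s) / B = s ∧ (r + B * s) % B = r := by
  have h1 := EuclideanDomain.div_add_mod (r + B * s) B
  have h2 := degree_mod_lt (r + B * s) hB
  have h3 : B * ((r + B * s) / B - s) = r - (r + B * s) % B := by linear_combination h1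
  have h4 : (r + B * s) / B - s = 0 := by
    by_contra h5
    have h6 : (r - (r + B * s) % B).degree < B.degree :=
      lt_of_le_of_lt (degree_sub_le _ _) (max_lt hr h2)
    rw [← h3] at h6
    exact absurd (degree_le_of_dvd (dvd_mul_right B _) (mul_ne_zero hB h5)) (not_le.mpr h6)
  refine ⟨sub_eq_zero.mp h4, ?_⟩
  rw [h4, mul_zero] at h3
  exact (sub_eq_zero.mp h3.symm).symm

omit [NeZero q] in
lemma deg_comb {P r z : F[X]} (hP : P ≠ 0) {m : ℕ} (hr : r.degree < P.degree)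
    (hz : z.degree < m) : (r + P * z).degree < (P.natDegree + m : ℕ) := by
  rw [degree_eq_natDegree hP] at hr
  refine lt_of_le_of_lt (degree_add_le _ _) (max_lt (lt_of_lt_of_le hr ?_) ?_)
  · exact_mod_cast Nat.le_add_right _ _
  · rw [degree_mul, degree_eq_natDegree hP, Nat.cast_add]
    exact WithBot.add_lt_add_left (WithBot.natCast_ne_bot _) hz

lemma sum_G_split {P : F[X]} (hP : P ≠ 0) (m : ℕ) (g : F[X] → ℝ) :
    ∑ u ∈ G E (P.natDegree + m), g u =
      ∑ r ∈ G E P.natDegree, ∑ z ∈ G E m, g (r + P * z) := by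
  rw [← Finset.sum_product']
  symm
  have hinj : ∀ w ∈ G E P.natDegree ×ˢ G E m, ∀ w' ∈ G E P.natDegree ×ˢ G E m,
      w.1 + P * w.2 = w'.1 + P * w'.2 → w = w' := by
    intro w hw w' hw' h
    rw [mem_product, mem_G, ← degree_eq_natDegree hP] at hw hw'
    have h1 := div_unique (s := w.2) hP hw.1
    have h2 := div_unique (s := w'.2) hP hw'.1
    rw [h] at h1
    exact Prod.ext (h1.2.symm.trans h2.2) (h1.1.symm.trans h2.1)
  have hmap : ∀ w ∈ G E P.natDegree ×ˢ G E m, w.1 + P * w.2 ∈ G E (P.natDegree + m) := by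
    intro w hw
    rw [mem_product, mem_G, mem_G, ← degree_eq_natDegree hP] at hw
    exact mem_G.mpr (deg_comb hP hw.1 hw.2)
  refine Finset.sum_bij (fun (w : F[X] × F[X]) _ => w.1 + P * w.2) hmap hinj ?_ fun _ _ => rfl
  intro u hu
  obtain ⟨a, ha, hab⟩ := Finset.surj_on_of_inj_on_of_card_le
    (s := G E P.natDegree ×ˢ G E m) (t := G E (P.natDegree + m))
    (fun (w : F[X] × F[X]) _ => w.1 + P * w.2) hmap (fun i j hi hj => hinj i hi j hj)
    (by rw [card_product, card_G, card_G, card_G, pow_add]) u hu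
  exact ⟨a, ha, hab.symm⟩

end Pool.Agent.H.MP_05fa0d_nt
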