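import Pool.Agent.H.MP_05fa0d_nt.A

set_option autoImplicit false

namespace Pool.Agent.H.MP_05fa0d_nt

open Polynomial Finset Pool.Agent.H.MP_81ecdf_nt Pool.Agent.H.MP_22b8ff_nt

variable {F : Type} [Field F] {q : ℕ} [NeZero q] {E : F ≃ Fin q}

def dg (E : F ≃ Fin q) (x : LaurentSeries F) (i : ℕ) : ℕ := E (x.coeff ((i : ℤ) + 1))

def Bd (Φ : LaurentSeries F) (c : ℕ) : Prop :=
  ∀ u : F[X], u ≠ 0 → ∃ n : ℕ, n < u.natDegree + c ∧ (emb u * Φ).coeff ((n : ℤ) + 1) ≠ 0

omit [NeZero q] in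
lemma coeff_shift (j : ℕ) (a : F) (x : LaurentSeries F) (n : ℤ) :
    (emb (monomial j a) * x).coeff n = a * x.coeff (n + j) := by
  rw [emb_monomial]
  have := HahnSeries.coeff_single_mul_add (r := a) (x := x) (a := n + j) (b := -(j : ℤ))
  rwa [add_neg_cancel_right] at this

lemma exists_z (E : F ≃ Fin q) {Φ : LaurentSeries F} {c : ℕ} (h : Bd Φ c) (s : ℕ) :
    ∃ z : F[X], z.degree < (s + 1 + c : ℕ) ∧ (∀ i < s, (emb z * Φ).coeff ((i : ℤ) + 1) = 0) ∧
      (emb z * Φ).coeff ((s : ℤ) + 1) ≠ 0 := by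
  classical
  haveI : Fintype F := Fintype.ofEquiv _ E.symm
  obtain ⟨u₁, h1, u₂, h2, h3, h4⟩ := Finset.exists_ne_map_eq_of_card_lt_of_maps_to
    (s := G E (s + 1)) (t := (Finset.univ : Finset (Fin s → F)))
    (by
      rw [card_G, card_univ, Fintype.card_fun, Fintype.card_congr E, Fintype.card_fin,
        Fintype.card_fin]
      exact Nat.pow_lt_pow_right (one_lt_q E) (by omega))
    (f := fun u (i : Fin s) => (emb u * Φ).coeff ((i : ℤ) + 1)) (fun _ _ => mem_univ _)
  have hu : u₁ - u₂ ≠ 0 := sub_ne_zero.mpr h3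
  have hd : (u₁ - u₂).natDegree < s + 1 := by
    rw [natDegree_lt_iff_degree_lt hu]
    exact lt_of_le_of_lt (degree_sub_le _ _) (max_lt (mem_G.mp h1) (mem_G.mp h2))
  have h5 : ∀ i < s, (emb (u₁ - u₂) * Φ).coeff ((i : ℤ) + 1) = 0 := by
    intro i hi
    rw [emb_sub, sub_mul, HahnSeries.coeff_sub, sub_eq_zero]
    exact congrFun h4 ⟨i, hi⟩
  obtain ⟨n, hn1, hn2⟩ := h _ hu
  have hex : ∃ n : ℕ, (emb (u₁ - u₂) * Φ).coeff ((n : ℤ) + 1) ≠ 0 := ⟨n, hn2⟩
  have h6 := Nat.find_spec hex
  have h7 : Nat.find hex ≤ n := Nat.find_min' hex hn2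
  have h8 : s ≤ Nat.find hex := by
    by_contra h9
    exact h6 (h5 _ (by omega))
  obtain ⟨j, hj⟩ := Nat.exists_eq_add_of_le h8
  refine ⟨monomial j 1 * (u₁ - u₂), ?_, fun i hi => ?_, ?_⟩
  · refine lt_of_le_of_lt degree_le_natDegree ?_
    have := natDegree_mul_le (p := monomial j (1 : F)) (q := u₁ - u₂)
    have h9 := natDegree_monomial_le (1 : F) (m := j)
    exact_mod_cast (by omega : (monomial j 1 * (u₁ - u₂)).natDegree < s + 1 + c)
  · rw [emb_mul, mul_assoc, coeff_shift, one_mul]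
    have := Nat.find_min hex (m := i + j) (by omega)
    rw [not_not] at this
    rw [← this]; congr 1; push_cast; ring
  · rw [emb_mul, mul_assoc, coeff_shift, one_mul]
    rw [hj] at h6
    convert h6 using 2; push_cast; ring

lemma equi {Φ : LaurentSeries F} {c : ℕ} (hB : Bd Φ c) (y : LaurentSeries F) (m s : ℕ) :
    s + c ≤ m → ∀ h : ℕ → ℝ, (q : ℝ) ^ s * ∑ u ∈ G E m, h (dl q (dg E (emb u * Φ + y)) s) =
      (q : ℝ) ^ m * ∑ k ∈ range (q ^ s), h k := by
  haveI : Fintype F := Fintype.ofEquiv _ E.symm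
  induction s with
  | zero => intro _ h; simp [dl, card_G]
  | succ s ih =>
    intro hs h
    obtain ⟨z, hz1, hz2, hz3⟩ := exists_z E hB s
    have h1 : ∀ l : F, ∑ u ∈ G E m, h (dl q (dg E (emb u * Φ + y)) (s + 1)) =
        ∑ u ∈ G E m, h (E ((emb u * Φ + y).coeff ((s : ℤ) + 1) +
          l * (emb z * Φ).coeff ((s : ℤ) + 1)) + q * dl q (dg E (emb u * Φ + y)) s) := by
      intro l
      have hm : monomial 0 l * z ∈ G E m := by
        rw [mem_G, monomial_zero_left, ← smul_eq_C_mul]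
        exact lt_of_le_of_lt (degree_smul_le _ _) (lt_of_lt_of_le hz1 (by exact_mod_cast hs))
      rw [← sum_G_shift hm]
      refine sum_congr rfl fun u _ => ?_
      have h2 : ∀ n : ℤ, (emb (u + monomial 0 l * z) * Φ + y).coeff n =
          (emb u * Φ + y).coeff n + l * (emb z * Φ).coeff n := by
        intro n
        rw [emb_add, emb_mul, add_mul, mul_assoc, add_right_comm, HahnSeries.coeff_add,
          coeff_shift]
        simp
      rw [dl, dl_congr q (e' := dg E (emb u * Φ + y)) s fun i hi => by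
        rw [dg, dg, h2, hz2 i hi, mul_zero, add_zero], dg, h2]
    have h3 : (q : ℝ) * ∑ u ∈ G E m, h (dl q (dg E (emb u * Φ + y)) (s + 1)) =
        ∑ u ∈ G E m, ∑ e ∈ range q, h (e + q * dl q (dg E (emb u * Φ + y)) s) := by
      have h4 := Finset.sum_congr (s₁ := (univ : Finset F)) rfl fun l _ => h1 l
      rw [sum_const, card_univ, Fintype.card_congr E, Fintype.card_fin, nsmul_eq_mul,
        sum_comm] at h4
      rw [h4]
      refine sum_congr rfl fun u _ => ?_
      rw [← Fin.sum_univ_eq_sum_range (fun e => h (e + q * dl q (dg E (emb u * Φ + y)) s))]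
      exact Fintype.sum_equiv (((Equiv.mulRight₀ _ hz3).trans (Equiv.addLeft _)).trans E) _ _
        fun l => rfl
    rw [pow_succ, mul_assoc, h3, ih (by omega)
      (fun k => ∑ e ∈ range q, h (e + q * k)), pow_succ', sum_range_mul, sum_comm]

lemma kronF {Φ : LaurentSeries F} {c : ℕ} (hB : Bd Φ c) (y : LaurentSeries F) (m : ℕ) {a : ℝ}
    (h0 : 0 ≤ a) (h1 : a ≤ 1) :
    |∑ u ∈ G E m, (if R q (dg E (emb u * Φ + y)) < a then (1 : ℝ) else 0) - a * q ^ m| ≤
      q ^ c := by
  have hq := one_lt_q E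
  have hq' : (1 : ℝ) < q := by exact_mod_cast hq
  by_cases hm : m < c
  · have h2 : (q : ℝ) ^ m ≤ q ^ c := pow_le_pow_right₀ hq'.le hm.le
    have h3 : 0 ≤ ∑ u ∈ G E m, (if R q (dg E (emb u * Φ + y)) < a then (1 : ℝ) else 0) :=
      sum_nonneg fun u _ => by split_ifs <;> simp
    have h4 : ∑ u ∈ G E m, (if R q (dg E (emb u * Φ + y)) < a then (1 : ℝ) else 0) ≤
        ∑ u ∈ G E m, (1 : ℝ) := sum_le_sum fun u _ => by split_ifs <;> simp
    rw [sum_const, card_G, nsmul_eq_mul, mul_one] at h4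
    push_cast at h4
    have h5 : (0 : ℝ) < q ^ m := by positivity
    rw [abs_le]; constructor <;> nlinarith
  obtain ⟨s, rfl⟩ := Nat.exists_eq_add_of_le' (not_lt.mp hm)
  have hs : (0 : ℝ) < q ^ s := by positivity
  have hc : (0 : ℝ) < q ^ c := by positivity
  have hR : ∀ x : LaurentSeries F, (dl q (dg E x) s : ℝ) ≤ q ^ s * R q (dg E x) ∧
      q ^ s * R q (dg E x) ≤ (dl q (dg E x) s : ℝ) + 1 := by
    intro x
    have h2 := R_dl hq (e := dg E x) (fun i => (E _).2) s
    have h3 := R_bd hq (e := fun i => dg E x (i + s)) (fun i => (E _).2)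
    constructor <;> linarith [h3.1, h3.2]
  have hup : ∑ u ∈ G E (s + c), (if R q (dg E (emb u * Φ + y)) < a then (1 : ℝ) else 0) ≤
      a * q ^ (s + c) + q ^ c := by
    have h2 := equi (E := E) hB y (s + c) s le_rfl fun k => max 0 (min 1 (a * q ^ s + 1 - k))
    rw [sum_clamp _ (by positivity), pow_add, mul_assoc] at h2
    have h3 := mul_left_cancel₀ hs.ne' h2
    calc _ ≤ _ := sum_le_sum fun u _ => ?_
      _ = _ := h3
      _ ≤ q ^ c * (a * q ^ s + 1) := mul_le_mul_of_nonneg_left (min_le_left _ _) hc.le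
      _ = _ := by ring
    split_ifs with h4
    · refine le_max_of_le_right (le_min le_rfl ?_)
      nlinarith [(hR (emb u * Φ + y)).1]
    · exact le_max_left _ _
  have hlo : a * q ^ (s + c) - q ^ c ≤
      ∑ u ∈ G E (s + c), (if R q (dg E (emb u * Φ + y)) < a then (1 : ℝ) else 0) := by
    by_cases ht : 0 ≤ a * q ^ s - 1
    · have h2 := equi (E := E) hB y (s + c) s le_rfl fun k => max 0 (min 1 (a * q ^ s - 1 - k))
      rw [sum_clamp _ ht, pow_add, mul_assoc, min_eq_left (by push_cast; nlinarith)] at h2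
      have h3 := mul_left_cancel₀ hs.ne' h2
      calc _ = q ^ c * (a * q ^ s - 1) := by ring
        _ = _ := h3.symm
        _ ≤ _ := sum_le_sum fun u _ => ?_
      split_ifs with h4
      · exact max_le zero_le_one (min_le_left _ _)
      · refine max_le le_rfl (min_le_of_right_le ?_)
        nlinarith [(hR (emb u * Φ + y)).2]
    · refine le_trans ?_ (sum_nonneg fun u _ => by split_ifs <;> simp)
      rw [pow_add]; nlinarith
  rw [abs_le]; constructor <;> linarith

noncomputable def V (E : F ≃ Fin q) (P z : F[X]) : ℝ :=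
  R (q ^ P.natDegree) fun i => evP E (z / P ^ i % P)

lemma V_dig (hE : E 0 = 0) {P : F[X]} (hP : P ≠ 0) (w : F[X]) : evP E (w % P) < q ^ P.natDegree :=
  evP_lt hE (mem_G.mpr (by rw [← degree_eq_natDegree hP]; exact degree_mod_lt _ hP))

lemma V_bd (hE : E 0 = 0) {P : F[X]} (hd : 0 < P.natDegree) (z : F[X]) :
    0 ≤ V E P z ∧ V E P z < 1 := by
  have hP : P ≠ 0 := by rintro rfl; simp at hd
  have hQ : 1 < q ^ P.natDegree := Nat.one_lt_pow hd.ne' (one_lt_q E)
  refine ⟨(R_bd hQ fun i => V_dig hE hP _).1, R_lt hQ (z.natDegree + 1) (fun i => V_dig hE hP _) ?_⟩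
  have : z / P ^ (z.natDegree + 1) = 0 := by
    rw [Polynomial.div_eq_zero_iff (pow_ne_zero _ hP)]
    apply degree_lt_degree
    rw [natDegree_pow]; nlinarith
  simp [this, evP, hE]

lemma V_rec (hE : E 0 = 0) {P : F[X]} (hd : 0 < P.natDegree) {k : ℕ} (hk : k < q ^ P.natDegree)
    (z : F[X]) : V E P (np E k + P * z) = (k + V E P z) / (q ^ P.natDegree : ℕ) := by
  have hP : P ≠ 0 := by rintro rfl; simp at hd
  have hQ : 1 < q ^ P.natDegree := Nat.one_lt_pow hd.ne' (one_lt_q E)
  have hr : (np E k).degree < P.degree := by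
    rw [degree_eq_natDegree hP]; exact mem_G.mp (np_mem hE hk)
  rw [V, R_rec hQ fun i => V_dig hE hP _, pow_zero, EuclideanDomain.div_one,
    (div_unique hP hr).2, evP_np hE, V]
  congr 3
  funext i
  congr 2
  have h1 := EuclideanDomain.div_add_mod z (P ^ i)
  have h2 := degree_mod_lt z (pow_ne_zero i hP)
  rw [degree_eq_natDegree (pow_ne_zero i hP)] at h2
  have h3 := deg_comb hP hr h2
  rw [← natDegree_mul hP (pow_ne_zero i hP), ← pow_succ',
    ← degree_eq_natDegree (pow_ne_zero _ hP)] at h3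
  rw [← (div_unique (s := z / P ^ i) (pow_ne_zero (i + 1) hP) h3).1]
  congr 1
  linear_combination (-P) * h1

lemma hybF (hE : E 0 = 0) {P : F[X]} (hd : 0 < P.natDegree) {a B : ℝ} (ha0 : 0 ≤ a) (ha1 : a ≤ 1)
    (hB : 0 ≤ B) (m : ℕ) :
    ∀ (f : F[X] → ℝ), (∀ u, 0 ≤ f u ∧ f u ≤ 1) →
      (∀ j r m', |∑ z ∈ G E m', f (r + P ^ j * z) - a * q ^ m'| ≤ B) →
      ∀ w : F[X], ∀ b : ℝ, 0 ≤ b → b ≤ 1 →
      |∑ u ∈ G E m, f (w + u) * (if V E P (w + u) < b then 1 else 0) - a * b * q ^ m| ≤
        (m + 1) * ((q ^ P.natDegree : ℕ) * (B + 1)) := by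
  have hP : P ≠ 0 := by rintro rfl; simp at hd
  have hq' : (1 : ℝ) < q := by exact_mod_cast one_lt_q E
  induction m using Nat.strong_induction_on with
  | _ m ih =>
    intro f hf hK w b hb0 hb1
    set Q := q ^ P.natDegree with hQ
    have hQ1 : (1 : ℝ) ≤ Q := by exact_mod_cast (Nat.one_lt_pow hd.ne' (one_lt_q E)).le
    have hm0 : (0 : ℝ) ≤ m := Nat.cast_nonneg _
    by_cases hm : m < P.natDegree
    · have h2 : (q : ℝ) ^ m ≤ Q := by
        rw [hQ]; push_cast; exact pow_le_pow_right₀ hq'.le hm.le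
      have h3 : 0 ≤ ∑ u ∈ G E m, f (w + u) * (if V E P (w + u) < b then 1 else 0) :=
        sum_nonneg fun u _ => by split_ifs <;> simp [(hf _).1]
      have h4 : ∑ u ∈ G E m, f (w + u) * (if V E P (w + u) < b then 1 else 0) ≤
          ∑ u ∈ G E m, (1 : ℝ) := sum_le_sum fun u _ => by split_ifs <;> simp [(hf _).2]
      rw [sum_const, card_G, nsmul_eq_mul, mul_one] at h4
      push_cast at h4
      have h5 : (0 : ℝ) < q ^ m := by positivity
      have h6 : a * b ≤ 1 := by nlinarith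
      have h7 : 0 ≤ a * b := by positivity
      have h8 : (Q : ℝ) ≤ (m + 1) * (Q * (B + 1)) := by
        nlinarith [mul_nonneg hm0 (mul_nonneg (zero_le_one.trans hQ1) hB)]
      rw [abs_le]; constructor <;> nlinarith
    obtain ⟨M, rfl⟩ := Nat.exists_eq_add_of_le (not_lt.mp hm)
    have hw : w % P ∈ G E (P.natDegree + M) := by
      rw [mem_G]
      refine lt_of_lt_of_le (degree_mod_lt _ hP) ?_
      rw [degree_eq_natDegree hP]; exact_mod_cast Nat.le_add_right _ _
    have h1 := sum_G_shift hw fun u =>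
      f (P * (w / P) + u) * (if V E P (P * (w / P) + u) < b then 1 else 0)
    have h2 : ∀ u, P * (w / P) + (u + w % P) = w + u := fun u => by
      linear_combination EuclideanDomain.div_add_mod w P
    simp only [h2] at h1
    rw [h1, sum_G_split hP, sum_G hE]
    have h9 : ∀ r z, P * (w / P) + (r + P * z) = r + P * (w / P + z) := fun r z => by ring
    simp only [h9]
    have h3 : ∀ r ∈ range Q, |∑ z ∈ G E M, f (np E r + P * (w / P + z)) *
          (if V E P (np E r + P * (w / P + z)) < b then 1 else 0)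
        - a * max 0 (min 1 (Q * b - r)) * q ^ M| ≤
        B + if r = ⌊Q * b⌋₊ then (M + 1) * (Q * (B + 1)) else 0 := by
      intro r hr
      rw [mem_range] at hr
      have h4 : ∀ z, V E P (np E r + P * z) < b ↔ V E P z < Q * b - r := by
        intro z
        rw [V_rec hE hd hr, div_lt_iff₀ (by linarith)]
        constructor <;> intro h <;> linarith
      simp only [h4]
      have h5 : 0 ≤ (if r = ⌊Q * b⌋₊ then ((M : ℝ) + 1) * (Q * (B + 1)) else 0) := by
        split_ifs <;> positivity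
      by_cases c1 : 1 ≤ Q * b - r
      · have h6 : ∀ z, V E P z < Q * b - r := fun z => lt_of_lt_of_le (V_bd hE hd z).2 c1
        simp only [h6, if_true, mul_one, min_eq_left c1, max_eq_right zero_le_one]
        have := hK 1 (np E r + P * (w / P)) M
        simp only [pow_one, add_assoc, ← mul_add] at this
        linarith
      by_cases c2 : Q * b - r ≤ 0
      · have h6 : ∀ z, ¬ V E P z < Q * b - r := fun z => not_lt.mpr (c2.trans (V_bd hE hd z).1)
        simp only [h6, if_false, mul_zero, sum_const_zero,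
          max_eq_left (min_le_of_right_le c2), zero_mul, sub_zero, abs_zero]
        linarith
      rw [not_le] at c1 c2
      have h6 : r = ⌊Q * b⌋₊ := by
        symm
        rw [Nat.floor_eq_iff (by positivity)]
        constructor <;> linarith
      rw [if_pos h6, min_eq_right c1.le, max_eq_right c2.le]
      have := ih M (by omega) (fun z => f (np E r + P * z)) (fun n => hf _) (fun j r' M' => by
        have := hK (j + 1) (np E r + P * r') M'
        simpa only [mul_add, ← mul_assoc, ← pow_succ', add_assoc] using this) (w / P)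
        (Q * b - r) c2.le c1.le
      linarith
    have h7 := (Finset.abs_sum_le_sum_abs _ _).trans (Finset.sum_le_sum h3)
    rw [sum_sub_distrib, ← sum_mul, ← mul_sum, sum_clamp _ (by positivity),
      min_eq_left (by nlinarith), sum_add_distrib, sum_ite_eq'] at h7
    simp only [sum_const, card_range, nsmul_eq_mul] at h7
    have h8 : (if ⌊Q * b⌋₊ ∈ range Q then ((M : ℝ) + 1) * (Q * (B + 1)) else 0) ≤
        ((M : ℝ) + 1) * (Q * (B + 1)) := by
      split_ifs
      · exact le_rfl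
      · positivity
    have h10 : a * b * (q : ℝ) ^ (P.natDegree + M) = a * (Q * b) * q ^ M := by
      rw [hQ]; push_cast; ring
    have h11 : (1 : ℝ) ≤ P.natDegree := by exact_mod_cast hd
    rw [h10]
    refine h7.trans ?_
    push_cast [-Nat.cast_pow]
    nlinarith [mul_nonneg (sub_nonneg.mpr h11) (mul_nonneg (zero_le_one.trans hQ1) (add_nonneg hB zero_le_one))]

omit [NeZero q] in
lemma blocks (hq : 1 < q) (g : ℕ → ℝ) {τ B : ℝ} (hB : 0 ≤ B) (L : ℕ)
    (h : ∀ m ≤ L, ∀ M, |∑ n ∈ range (q ^ m), g (n + q ^ m * M) - τ * q ^ m| ≤ B) (m : ℕ) :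
    m ≤ L → ∀ M N, N ≤ q ^ m → |∑ n ∈ range N, g (n + q ^ m * M) - τ * N| ≤ (m * q + 1) * B := by
  induction m with
  | zero =>
    intro _ M N hN
    rcases Nat.le_one_iff_eq_zero_or_eq_one.mp hN with rfl | rfl
    · simpa using hB
    · simpa using h 0 (Nat.zero_le _) M
  | succ m ih =>
    intro hm M N hN
    have hd := Nat.div_add_mod N (q ^ m)
    have hr := Nat.mod_lt N (show 0 < q ^ m by positivity)
    have hk : N / q ^ m ≤ q := Nat.div_le_of_le_mul (by rwa [pow_succ] at hN)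
    set k := N / q ^ m
    set s := N % q ^ m
    rw [← hd, sum_range_add, sum_range_mul, sum_comm]
    have h1 := ih (by omega) (k + q * M) s hr.le
    have h2 : ∀ i ∈ range k, |∑ n ∈ range (q ^ m), g (n + q ^ m * i + q ^ (m + 1) * M) - τ * q ^ m|
        ≤ B := by
      intro i _
      have := h m (by omega) (i + q * M)
      simpa only [mul_add, ← mul_assoc, ← pow_succ, add_assoc] using this
    have h3 := (Finset.abs_sum_le_sum_abs _ _).trans (Finset.sum_le_sum h2)
    rw [sum_sub_distrib] at h3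
    simp only [sum_const, card_range, nsmul_eq_mul] at h3
    have h4 : ∀ n, q ^ m * k + n + q ^ (m + 1) * M = n + q ^ m * (k + q * M) := fun n => by ring
    simp only [h4]
    have h5 : (k : ℝ) ≤ q := by exact_mod_cast hk
    rw [abs_le] at h1 h3 ⊢
    push_cast
    constructor <;> nlinarith [h1.1, h1.2, h3.1, h3.2]

lemma mainF (hE : E 0 = 0) {P : F[X]} (hd : 0 < P.natDegree) {Θ : LaurentSeries F} {c : ℕ}
    (h : ∀ j, Bd (emb (P ^ j) * Θ) c) :
    ∃ C : ℝ, ∀ N : ℕ, 2 ≤ N → ∀ a b : ℝ, 0 ≤ a → a ≤ 1 → 0 ≤ b → b ≤ 1 →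
      |∑ n ∈ range N, (if R q (dg E (emb (np E n) * Θ)) < a then (1 : ℝ) else 0) *
        (if V E P (np E n) < b then 1 else 0) - a * b * N| ≤ C * Real.log N ^ 2 := by
  have hq := one_lt_q E
  refine ⟨36 * (q * ((q ^ P.natDegree : ℕ) * (q ^ c + 1))), fun N hN a b ha0 ha1 hb0 hb1 => ?_⟩
  set L := Nat.clog 2 N
  have hL : N ≤ q ^ L := (Nat.le_pow_clog (by norm_num) N).trans (Nat.pow_le_pow_left hq _)
  have h1 := blocks hq (fun n => (if R q (dg E (emb (np E n) * Θ)) < a then (1 : ℝ) else 0) *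
        (if V E P (np E n) < b then 1 else 0)) (τ := a * b)
    (B := (L + 1) * ((q ^ P.natDegree : ℕ) * (q ^ c + 1))) (by positivity) L (fun m hm M => by
      have h2 := hybF hE hd ha0 ha1 (B := q ^ c) (by positivity) m
        (fun u => if R q (dg E (emb u * Θ)) < a then (1 : ℝ) else 0)
        (fun n => by split_ifs <;> simp) (fun j r m' => by
          have := kronF (E := E) (h j) (emb r * Θ) m' ha0 ha1
          have h3 : ∀ z, emb (r + P ^ j * z) * Θ = emb z * (emb (P ^ j) * Θ) + emb r * Θ := by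
            intro z; rw [emb_add, emb_mul]; ring
          simp only [h3]; exact this) (X ^ m * np E M) b hb0 hb1
      rw [sum_G hE] at h2
      rw [sum_congr rfl fun n hn => by rw [np_add hE (mem_range.mp hn)]]
      refine h2.trans (mul_le_mul_of_nonneg_right ?_ (by positivity))
      exact_mod_cast Nat.succ_le_succ hm) L le_rfl 0 N hL
  simp only [mul_zero, add_zero] at h1
  refine h1.trans ?_
  have h6 := clog_le hN
  have h7 : (0 : ℝ) ≤ L := Nat.cast_nonneg _
  have h8 : ((L : ℝ) + 1) ^ 2 ≤ (6 * Real.log N) ^ 2 := pow_le_pow_left₀ (by positivity) h6 2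
  have h9 : (1 : ℝ) ≤ q := by exact_mod_cast hq.le
  set W : ℝ := (q ^ P.natDegree : ℕ) * (q ^ c + 1)
  have hW : 0 ≤ W := by positivity
  calc _ ≤ (q * W) * ((L : ℝ) + 1) ^ 2 := by
        nlinarith [mul_nonneg (mul_nonneg hW (add_nonneg h7 zero_le_one)) (sub_nonneg.mpr h9)]
    _ ≤ (q * W) * (6 * Real.log N) ^ 2 := mul_le_mul_of_nonneg_left h8 (by positivity)
    _ = _ := by ring

end Pool.Agent.H.MP_05fa0d_nt
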